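import Mathlib

set_option autoImplicit false

/-! # Weyl–Heisenberg overlaps: basic facts -/

namespace Pool.Agent.R503.SIC

open Finset Complex
open scoped ComplexConjugate

variable {d : ℕ} [NeZero d]

/-- `ω ^ x` with `ω = exp (2 π i / d)` -/
noncomputable def e (x : ZMod d) : ℂ := ZMod.stdAddChar x

/-- `⟨ψ, X ^ a Z ^ b ψ⟩` -/
noncomputable def ov (ψ : ZMod d → ℂ) (a b : ZMod d) : ℂ :=
  ∑ j, conj (ψ (j + a)) * (e (b * j) * ψ j)

/-- fiducial vector -/
def Fid (ψ : ZMod d → ℂ) : Prop :=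
  ∑ j, ‖ψ j‖ ^ 2 = 1 ∧ ∀ a b : ZMod d, (a, b) ≠ (0, 0) → ‖ov ψ a b‖ ^ 2 = 1 / ((d : ℝ) + 1)

theorem e_add (x y : ZMod d) : e (x + y) = e x * e y := by
  unfold e; exact AddChar.map_add_eq_mul _ _ _

theorem e_zero : e (0 : ZMod d) = 1 := by
  unfold e; exact AddChar.map_zero_eq_one _

theorem norm_e (x : ZMod d) : ‖e x‖ = 1 := by
  unfold e
  rw [ZMod.stdAddChar_apply]
  exact Circle.norm_coe _

theorem e_ne_zero (x : ZMod d) : e x ≠ 0 := by
  intro h
  have := norm_e x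
  rw [h, norm_zero] at this
  exact zero_ne_one this

theorem e_mul_neg (x : ZMod d) : e x * e (-x) = 1 := by
  rw [← e_add, add_neg_cancel, e_zero]

theorem conj_e (x : ZMod d) : conj (e x) = e (-x) := by
  have h1 : e x * conj (e x) = 1 := by
    rw [Complex.mul_conj, Complex.normSq_eq_norm_sq, norm_e]; simp
  have h2 := e_mul_neg x
  exact mul_left_cancel₀ (e_ne_zero x) (h1.trans h2.symm)

theorem e_inj {x y : ZMod d} (h : e x = e y) : x = y :=
  ZMod.injective_stdAddChar h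

theorem sum_e (x : ZMod d) : ∑ y : ZMod d, e (y * x) = if x = 0 then (d : ℂ) else 0 := by
  have h := AddChar.sum_mulShift x (ZMod.isPrimitive_stdAddChar d)
  rw [ZMod.card] at h
  exact_mod_cast h

theorem conj_mul_self' (z : ℂ) : conj z * z = ((‖z‖ ^ 2 : ℝ) : ℂ) := by
  rw [mul_comm, Complex.mul_conj, Complex.normSq_eq_norm_sq]

theorem norm_conj' (z : ℂ) : ‖conj z‖ = ‖z‖ := Complex.norm_conj z

theorem ov_zero {ψ : ZMod d → ℂ} (h : ∑ j, ‖ψ j‖ ^ 2 = 1) : ov ψ 0 0 = 1 := by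
  unfold ov
  have : ∀ j : ZMod d, conj (ψ (j + 0)) * (e (0 * j) * ψ j) = ((‖ψ j‖ ^ 2 : ℝ) : ℂ) := by
    intro j
    rw [add_zero, zero_mul, e_zero, one_mul, conj_mul_self']
  rw [Finset.sum_congr rfl fun j _ => this j, ← Complex.ofReal_sum, h, Complex.ofReal_one]

/-- `conj ⟨ψ, X^a Z^b ψ⟩ = ω^(ab) ⟨ψ, X^(-a) Z^(-b) ψ⟩` -/
theorem conj_ov (ψ : ZMod d → ℂ) (a b : ZMod d) : conj (ov ψ a b) = e (b * a) * ov ψ (-a) (-b) := by
  unfold ov
  rw [map_sum, Finset.mul_sum]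
  refine Fintype.sum_equiv (Equiv.addRight a) _ _ fun j => ?_
  simp only [Equiv.coe_addRight, map_mul, Complex.conj_conj, conj_e]
  have h1 : j + a + -a = j := by ring
  rw [h1]
  have h2 : e (b * a) * e (-b * (j + a)) = e (-(b * j)) := by
    rw [← e_add]; congr 1; ring
  calc ψ (j + a) * (e (-(b * j)) * conj (ψ j))
      = e (-(b * j)) * (conj (ψ j) * ψ (j + a)) := by ring
    _ = _ := by rw [← h2]; ring

/-- a fiducial vector is not an eigenvector of a displacement operator -/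
theorem eq_zero_of_norm {ψ : ZMod d → ℂ} (h : Fid ψ) {a b : ZMod d} (hab : ‖ov ψ a b‖ = 1) :
    a = 0 ∧ b = 0 := by
  by_contra hcon
  have h1 : (a, b) ≠ (0, 0) := by
    intro h1
    rw [Prod.mk.injEq] at h1
    exact hcon h1
  have h2 := h.2 a b h1
  rw [hab] at h2
  have hd : (0 : ℝ) < d := by exact_mod_cast Nat.pos_of_ne_zero (NeZero.ne d)
  rw [eq_div_iff (by positivity)] at h2
  nlinarith

end Pool.Agent.R503.SIC
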