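import Pool.Agent.R503.SIC.Dil

set_option autoImplicit false

/-! # Clifford unitaries of even order -/

namespace Pool.Agent.R503.SIC

open Finset Complex
open scoped ComplexConjugate

variable {d : ℕ} [NeZero d]

/-- `X ^ a Z ^ b` -/
noncomputable def Dm (a b : ZMod d) : Matrix (ZMod d) (ZMod d) ℂ :=
  Matrix.of fun i j => if i = j + a then e (b * j) else 0

/-- normalizes the Weyl–Heisenberg group -/
def Nrm (U : Matrix (ZMod d) (ZMod d) ℂ) : Prop :=
  ∀ a b : ZMod d, ∃ (a' b' : ZMod d) (c : ℂ), U * Dm a b = c • (Dm a' b' * U)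

theorem Dm_mul (a b a' b' : ZMod d) :
    Dm a b * Dm a' b' = e (b * a') • Dm (a + a') (b + b') := by
  ext i j
  rw [Matrix.mul_apply, Finset.sum_eq_single (j + a')]
  · simp only [Dm, Matrix.of_apply, Matrix.smul_apply, smul_eq_mul, if_true]
    by_cases h : i = j + a' + a
    · rw [if_pos h, if_pos (by rw [h]; ring), ← e_add, ← e_add]
      congr 1; ring
    · rw [if_neg h, if_neg (fun h' => h (by rw [h']; ring))]
      simp
  · intro l _ hl
    simp only [Dm, Matrix.of_apply]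
    rw [if_neg hl, mul_zero]
  · intro h
    exact absurd (Finset.mem_univ _) h

theorem Dm_comm (a b a' b' : ZMod d) :
    Dm a b * Dm a' b' = e (b * a' - b' * a) • (Dm a' b' * Dm a b) := by
  rw [Dm_mul, Dm_mul, smul_smul, ← e_add, add_comm a' a, add_comm b' b]
  congr 2; ring

theorem Dm_zero : Dm (0 : ZMod d) 0 = 1 := by
  ext i j
  simp only [Dm, Matrix.of_apply, add_zero, zero_mul, e_zero, Matrix.one_apply]

theorem Dm_ne_zero (a b : ZMod d) : Dm a b ≠ 0 := by
  intro h
  have := congrFun (congrFun h (0 + a)) 0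
  simp only [Dm, Matrix.of_apply, if_true, Matrix.zero_apply] at this
  exact e_ne_zero _ this

theorem Dm_inj {a b a' b' : ZMod d} {c : ℂ} (h : Dm a b = c • Dm a' b') : a = a' ∧ b = b' := by
  have h0 : ∀ j : ZMod d, a = a' ∧ e (b * j) = c * e (b' * j) := by
    intro j
    have h1 := congrFun (congrFun h (j + a)) j
    simp only [Dm, Matrix.of_apply, if_true, Matrix.smul_apply, smul_eq_mul] at h1
    by_cases h2 : j + a = j + a'
    · rw [if_pos h2] at h1
      exact ⟨add_left_cancel h2, h1⟩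
    · rw [if_neg h2, mul_zero] at h1
      exact absurd h1 (e_ne_zero _)
  refine ⟨(h0 0).1, ?_⟩
  have h1 := (h0 0).2
  have h2 := (h0 1).2
  rw [mul_zero, mul_zero, e_zero, mul_one] at h1
  rw [← h1, one_mul, mul_one, mul_one] at h2
  exact e_inj h2

/-- cancellation on the right -/
theorem cancel {U A B : Matrix (ZMod d) (ZMod d) ℂ} (hU : IsUnit U) (h : A * U = B * U) : A = B :=
  hU.mul_right_cancel h

theorem c_ne {U : Matrix (ZMod d) (ZMod d) ℂ} (hU : IsUnit U) {a b a' b' : ZMod d} {c : ℂ}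
    (h : U * Dm a b = c • (Dm a' b' * U)) : c ≠ 0 := by
  rintro rfl
  rw [zero_smul] at h
  have : Dm a b = 0 := hU.mul_left_cancel (by rw [h, mul_zero])
  exact Dm_ne_zero _ _ this

/-- the symplectic form is preserved -/
theorem sympl {U : Matrix (ZMod d) (ZMod d) ℂ} (hU : IsUnit U)
    {a b a' b' : ZMod d} {c : ℂ} (h : U * Dm a b = c • (Dm a' b' * U))
    {x y x' y' : ZMod d} {c' : ℂ} (h' : U * Dm x y = c' • (Dm x' y' * U)) :
    b * x - y * a = b' * x' - y' * a' := by
  have h1 : U * (Dm a b * Dm x y) = (c * c') • (Dm a' b' * Dm x' y' * U) := by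
    rw [← mul_assoc, h, Matrix.smul_mul, mul_assoc, h', Matrix.mul_smul, smul_smul, mul_assoc]
  have h2 : U * (Dm x y * Dm a b) = (c * c') • (Dm x' y' * Dm a' b' * U) := by
    rw [← mul_assoc, h', Matrix.smul_mul, mul_assoc, h, Matrix.mul_smul, smul_smul, mul_assoc,
      mul_comm c' c]
  rw [Dm_comm a b x y, Matrix.mul_smul, h2, Dm_comm a' b' x' y', smul_smul, Matrix.smul_mul,
    smul_smul] at h1
  have hc : c * c' ≠ 0 := mul_ne_zero (c_ne hU h) (c_ne hU h')
  obtain ⟨W, hW⟩ : ∃ W, W = Dm x' y' * Dm a' b' * U := ⟨_, rfl⟩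
  rw [← hW] at h1
  have hW0 : W ≠ 0 := by
    rw [hW, Dm_mul, Matrix.smul_mul]
    intro h3
    rw [smul_eq_zero] at h3
    rcases h3 with h3 | h3
    · exact e_ne_zero _ h3
    · have : Dm (x' + a') (y' + b') = 0 := hU.mul_right_cancel (by rw [h3, zero_mul])
      exact Dm_ne_zero _ _ this
  have h3 : (e (b * x - y * a) * (c * c') - c * c' * e (b' * x' - y' * a')) • W = 0 := by
    rw [sub_smul, h1, sub_self]
  rw [smul_eq_zero] at h3
  rcases h3 with h3 | h3
  · apply e_inj
    have h4 : (e (b * x - y * a) - e (b' * x' - y' * a')) * (c * c') = 0 := by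
      linear_combination h3
    rcases mul_eq_zero.1 h4 with h5 | h5
    · exact sub_eq_zero.1 h5
    · exact absurd h5 hc
  · exact absurd h3 hW0

/-- powers normalize -/
theorem Nrm.mul {U V : Matrix (ZMod d) (ZMod d) ℂ} (hU : Nrm U) (hV : Nrm V) : Nrm (U * V) := by
  intro a b
  obtain ⟨a', b', c, h⟩ := hV a b
  obtain ⟨a'', b'', c', h'⟩ := hU a' b'
  refine ⟨a'', b'', c * c', ?_⟩
  rw [mul_assoc, h, Matrix.mul_smul, ← mul_assoc, h', Matrix.smul_mul, smul_smul, mul_assoc]

theorem Nrm.one : Nrm (1 : Matrix (ZMod d) (ZMod d) ℂ) := by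
  intro a b
  exact ⟨a, b, 1, by rw [one_mul, mul_one, one_smul]⟩

theorem Nrm.pow {U : Matrix (ZMod d) (ZMod d) ℂ} (hU : Nrm U) (m : ℕ) : Nrm (U ^ m) := by
  induction m with
  | zero => rw [pow_zero]; exact Nrm.one
  | succ m ih => rw [pow_succ]; exact ih.mul hU

/-- an involution modulo scalars normalizing the group, in odd dimension, acts by a scalar -/
theorem invol {V : Matrix (ZMod d) (ZMod d) ℂ} (hd : Odd d) (hU : IsUnit V) (hn : Nrm V) {s : ℂ}
    (hs : V * V = s • 1) : ∃ (k : ZMod d) (c₁ c₂ : ℂ), k * k = 1 ∧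
      V * Dm 1 0 = c₁ • (Dm k 0 * V) ∧ V * Dm 0 1 = c₂ • (Dm 0 k * V) := by
  obtain ⟨α, γ, c₁, h1⟩ := hn 1 0
  obtain ⟨β, δ, c₂, h2⟩ := hn 0 1
  have hdet : δ * α - γ * β = 1 := by
    have := sympl hU h2 h1
    linear_combination -this
  obtain ⟨α', γ', c₃, h3⟩ := hn α γ
  obtain ⟨β', δ', c₄, h4⟩ := hn β δ
  have h5 : Dm 1 0 = (c₁ * c₃) • Dm α' γ' ∨ True := Or.inr trivial
  have hVV : IsUnit (V * V) := hU.mul hU
  have hX : Dm (1 : ZMod d) 0 = (c₁ * c₃) • Dm α' γ' := by
    apply hVV.mul_right_cancel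
    have : V * V * Dm 1 0 = (c₁ * c₃) • (Dm α' γ' * (V * V)) := by
      rw [mul_assoc, h1, Matrix.mul_smul, ← mul_assoc, h3, Matrix.smul_mul, smul_smul, mul_assoc]
    rw [Matrix.smul_mul, ← this, hs, Matrix.smul_mul, Matrix.mul_smul, one_mul, mul_one]
  have hZ : Dm (0 : ZMod d) 1 = (c₂ * c₄) • Dm β' δ' := by
    apply hVV.mul_right_cancel
    have : V * V * Dm 0 1 = (c₂ * c₄) • (Dm β' δ' * (V * V)) := by
      rw [mul_assoc, h2, Matrix.mul_smul, ← mul_assoc, h4, Matrix.smul_mul, smul_smul, mul_assoc]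
    rw [Matrix.smul_mul, ← this, hs, Matrix.smul_mul, Matrix.mul_smul, one_mul, mul_one]
  obtain ⟨e1, e2⟩ := Dm_inj hX
  obtain ⟨e3, e4⟩ := Dm_inj hZ
  -- `(α, γ) ↦ (1, 0)` and `(β, δ) ↦ (0, 1)`
  have q1 := sympl hU h3 h1
  have q2 := sympl hU h3 h2
  have q3 := sympl hU h4 h1
  have q4 := sympl hU h4 h2
  rw [← e1, ← e2] at q1 q2
  rw [← e3, ← e4] at q3 q4
  -- q1 : γ * 1 - 0 * α = 0 * α - γ * 1 ; q2 : γ * 0 - 1 * α = 0 * β - δ * 1
  have h20 : IsUnit (2 : ZMod d) := by
    have : Nat.Coprime 2 d := (Nat.coprime_two_left).2 hd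
    exact_mod_cast (ZMod.isUnit_iff_coprime 2 d).2 this
  have hγ : γ = 0 := by
    have : 2 * γ = 2 * 0 := by linear_combination q1
    exact h20.mul_left_cancel this
  have hβ : β = 0 := by
    have : 2 * β = 2 * 0 := by linear_combination -q4
    exact h20.mul_left_cancel this
  have hαδ : α = δ := by linear_combination -q2
  rw [hγ] at h1
  rw [hβ, ← hαδ] at h2
  refine ⟨α, c₁, c₂, ?_, h1, h2⟩
  rw [hγ, ← hαδ] at hdet
  linear_combination hdet

theorem entries {V : Matrix (ZMod d) (ZMod d) ℂ} (hU : IsUnit V) {k : ZMod d} {c₁ c₂ : ℂ}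
    (hk : k * k = 1) (h1 : V * Dm 1 0 = c₁ • (Dm k 0 * V)) (h2 : V * Dm 0 1 = c₂ • (Dm 0 k * V)) :
    ∃ (a b : ZMod d) (v : ℂ), v ≠ 0 ∧ ∀ i j, V i j = if i = k * j + a then v * e (b * j) else 0 := by
  -- every column has a nonzero entry
  have hcol : ∀ j, ∃ i, V i j ≠ 0 := by
    intro j
    by_contra hcon
    push Not at hcon
    obtain ⟨W, hW⟩ := hU.exists_left_inv
    have := congrFun (congrFun hW j) j
    rw [Matrix.mul_apply, Matrix.one_apply_eq] at this
    simp [hcon] at this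
  have hZ : ∀ i j, V i j * e j = c₂ * (e (k * i) * V i j) := by
    intro i j
    have h3 := congrFun (congrFun h2 i) j
    rw [Matrix.mul_apply, Matrix.smul_apply, Matrix.mul_apply, Finset.sum_eq_single j,
      Finset.sum_eq_single i] at h3
    · simpa [Dm, smul_eq_mul] using h3
    · intro l _ hl
      simp only [Dm, Matrix.of_apply]
      rw [if_neg (by rw [add_zero]; exact fun h => hl h.symm), zero_mul]
    · intro h; exact absurd (Finset.mem_univ _) h
    · intro l _ hl
      simp only [Dm, Matrix.of_apply]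
      rw [if_neg (by rw [add_zero]; exact hl), mul_zero]
    · intro h; exact absurd (Finset.mem_univ _) h
  have hX : ∀ i j, V i (j + 1) = c₁ * V (i - k) j := by
    intro i j
    have h3 := congrFun (congrFun h1 i) j
    rw [Matrix.mul_apply, Matrix.smul_apply, Matrix.mul_apply, Finset.sum_eq_single (j + 1),
      Finset.sum_eq_single (i - k)] at h3
    · simpa [Dm, smul_eq_mul, e_zero] using h3
    · intro l _ hl
      simp only [Dm, Matrix.of_apply]
      rw [if_neg (fun h => hl (by rw [h]; ring)), zero_mul]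
    · intro h; exact absurd (Finset.mem_univ _) h
    · intro l _ hl
      simp only [Dm, Matrix.of_apply]
      rw [if_neg hl, mul_zero]
    · intro h; exact absurd (Finset.mem_univ _) h
  obtain ⟨i₀, hi₀⟩ := hcol 0
  -- `c₂ = e (- k i₀)`
  have hc₂ : c₂ = e (-(k * i₀)) := by
    have h3 := hZ i₀ 0
    rw [e_zero, mul_one] at h3
    have h4 : c₂ * e (k * i₀) = 1 := mul_right_cancel₀ hi₀ (by rw [one_mul]; linear_combination -h3)
    have h5 := e_mul_neg (k * i₀)
    linear_combination e (-(k * i₀)) * h4 - c₂ * h5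
  have hsupp : ∀ i j, V i j ≠ 0 → i = k * j + i₀ := by
    intro i j hij
    have h3 := hZ i j
    rw [hc₂] at h3
    have h4 : e j = e (-(k * i₀) + k * i) := by
      rw [e_add]
      exact mul_left_cancel₀ hij (by linear_combination h3)
    have h5 := e_inj h4
    linear_combination i₀ * hk - i * hk - k * h5
  -- the entries
  have hn : ∀ n : ℕ, V (k * (n : ZMod d) + i₀) (n : ZMod d) = c₁ ^ n * V i₀ 0 := by
    intro n
    induction n with
    | zero => simp
    | succ n ih =>
      have h3 := hX (k * ((n + 1 : ℕ) : ZMod d) + i₀) (n : ZMod d)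
      rw [show k * ((n + 1 : ℕ) : ZMod d) + i₀ - k = k * (n : ZMod d) + i₀ by push_cast; ring, ih,
        ← Nat.cast_succ] at h3
      rw [h3]; ring
  have hc₁ : c₁ ^ d = 1 := by
    have h3 := hn d
    rw [ZMod.natCast_self, mul_zero, zero_add] at h3
    exact mul_right_cancel₀ hi₀ (by rw [one_mul]; exact h3.symm)
  obtain ⟨b, hb⟩ : ∃ b : ZMod d, c₁ = e b := by
    have hprim : IsPrimitiveRoot (Complex.exp (2 * Real.pi * I / d)) d :=
      Complex.isPrimitiveRoot_exp d (NeZero.ne d)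
    obtain ⟨i, -, hi⟩ := hprim.eq_pow_of_pow_eq_one hc₁
    refine ⟨(i : ℤ), ?_⟩
    rw [← hi]
    unfold e
    rw [ZMod.stdAddChar_coe, ← Complex.exp_nat_mul]
    congr 1
    push_cast; ring
  have hpow : ∀ n : ℕ, c₁ ^ n = e (b * (n : ZMod d)) := by
    intro n
    induction n with
    | zero => simp [e_zero]
    | succ n ih =>
      rw [pow_succ, ih, hb, ← e_add]
      congr 1; push_cast; ring
  refine ⟨i₀, b, V i₀ 0, hi₀, fun i j => ?_⟩
  by_cases h : i = k * j + i₀
  · rw [if_pos h, h]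
    have h3 := hn j.val
    rw [ZMod.natCast_zmod_val, hpow, ZMod.natCast_zmod_val] at h3
    rw [h3]; ring
  · rw [if_neg h]
    by_contra h3
    exact h (hsupp i j h3)

/-- **Main theorem on Clifford unitaries.** -/
theorem clifford (hd : Odd d) {ψ : ZMod d → ℂ} (hψ : Fid ψ) {V : Matrix (ZMod d) (ZMod d) ℂ}
    (hU : IsUnit V) (hn : Nrm V) {s l : ℂ} (hs : V * V = s • 1) (hl : V.mulVec ψ = l • ψ)
    (hV : ∀ r : ℂ, V ≠ r • 1) :
    ∃ (k a b : ZMod d) (c : ℂ), k ≠ 1 ∧ Sym ψ k a b c := by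
  obtain ⟨k, c₁, c₂, hk, h1, h2⟩ := invol hd hU hn hs
  obtain ⟨a, b, v, hv, hent⟩ := entries hU hk h1 h2
  have hl0 : l ≠ 0 := by
    rintro rfl
    rw [zero_smul] at hl
    obtain ⟨W, hW⟩ := hU.exists_left_inv
    have : ψ = 0 := by
      have h3 := congrArg (fun x => W.mulVec x) hl
      simp only [Matrix.mulVec_mulVec, hW, Matrix.one_mulVec, Matrix.mulVec_zero] at h3
      exact h3
    obtain ⟨j, hj⟩ := exists_ne hψ.1
    exact hj (by rw [this]; rfl)
  have hsym : Sym ψ k a b (v / l) := by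
    refine ⟨hk, fun j => ?_⟩
    have h3 := congrFun hl (k * j + a)
    rw [Matrix.mulVec, dotProduct, Finset.sum_eq_single j] at h3
    · rw [hent, if_pos rfl, Pi.smul_apply, smul_eq_mul] at h3
      rw [div_mul_eq_mul_div, div_mul_eq_mul_div, eq_div_iff hl0, h3]
      ring
    · intro i _ hi
      rw [hent, if_neg, zero_mul]
      intro h4
      exact hi ((bij hk a).1 h4.symm)
    · intro h; exact absurd (Finset.mem_univ _) h
  refine ⟨k, a, b, v / l, ?_, hsym⟩
  rintro rfl
  -- a displacement operator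
  have hn1 : ‖ov ψ a b‖ = 1 := by
    have h3 : ov ψ a b = conj (v / l) := by
      unfold ov
      have h4 : ∀ j, conj (ψ (j + a)) * (e (b * j) * ψ j) =
          conj (v / l) * ((‖ψ j‖ ^ 2 : ℝ) : ℂ) := by
        intro j
        have h5 := hsym.2 j
        rw [one_mul] at h5
        rw [h5, ← conj_mul_self', map_mul, map_mul (starRingEnd ℂ) (v / l), conj_e]
        have := e_mul_neg (b * j)
        linear_combination conj (v / l) * conj (ψ j) * ψ j * this
      rw [Finset.sum_congr rfl fun j _ => h4 j, ← Finset.mul_sum, ← Complex.ofReal_sum, hψ.1,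
        Complex.ofReal_one, mul_one]
    rw [h3, norm_conj', norm_c hψ.1 hsym]
  obtain ⟨ha, hb⟩ := eq_zero_of_norm hψ hn1
  apply hV v
  ext i j
  rw [hent, ha, hb, Matrix.smul_apply, Matrix.one_apply, one_mul, add_zero, zero_mul, e_zero,
    mul_one]
  by_cases h : i = j
  · rw [if_pos h, if_pos h, smul_eq_mul, mul_one]
  · rw [if_neg h, if_neg h, smul_zero]

theorem mulVec_pow {U : Matrix (ZMod d) (ZMod d) ℂ} {ψ : ZMod d → ℂ} {l : ℂ}
    (h : U.mulVec ψ = l • ψ) (m : ℕ) : (U ^ m).mulVec ψ = (l ^ m) • ψ := by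
  induction m with
  | zero => simp
  | succ m ih =>
    rw [pow_succ, ← Matrix.mulVec_mulVec, h, Matrix.mulVec_smul, ih, smul_smul, pow_succ, mul_comm]

/-- prime powers `d` with `d + 1` a square -/
theorem primePow {d t : ℕ} (ht : t ^ 2 = d + 1) (hd : IsPrimePow d) : d = 3 ∨ d = 8 := by
  obtain ⟨p, n, hp, hn, hpn⟩ := hd
  have hp' : p.Prime := hp.nat_prime
  have ht1 : 1 ≤ t := by
    rcases Nat.eq_zero_or_pos t with h | h
    · rw [h] at ht; simp at ht
    · exact h
  obtain ⟨s, rfl⟩ := Nat.exists_eq_add_of_le ht1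
  have hd : d = s * (s + 2) := by
    have : (1 + s) ^ 2 = s * (s + 2) + 1 := by ring
    omega
  rw [hd] at hpn
  obtain ⟨i, -, hi⟩ := (Nat.dvd_prime_pow hp').1 (Dvd.intro _ hpn.symm)
  obtain ⟨j, -, hj⟩ := (Nat.dvd_prime_pow hp').1 (Dvd.intro_left _ hpn.symm)
  rcases Nat.eq_zero_or_pos i with h0 | h0
  · left
    rw [h0, pow_zero] at hi
    rw [hd, hi]; norm_num
  · have hj0 : 0 < j := by
      rcases Nat.eq_zero_or_pos j with h | h
      · rw [h, pow_zero] at hj; omega
      · exact h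
    have h1 : p ∣ s := by rw [hi]; exact dvd_pow_self p h0.ne'
    have h2 : p ∣ s + 2 := by rw [hj]; exact dvd_pow_self p hj0.ne'
    have h3 : p ∣ 2 := (Nat.dvd_add_right h1).1 h2
    have h4 : p = 2 := (Nat.prime_dvd_prime_iff_eq hp' Nat.prime_two).1 h3
    rw [h4] at hi hj
    right
    rcases Nat.lt_or_ge 1 i with h5 | h5
    · -- 4 ∣ s
      have h6 : 4 ∣ s := by
        rw [hi]; exact pow_dvd_pow 2 (m := 2) h5
      have h7 : j = 1 := by
        by_contra h8
        have h9 : 4 ∣ s + 2 := by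
          rw [hj]; exact pow_dvd_pow 2 (m := 2) (by omega)
        have := (Nat.dvd_add_right h6).1 h9
        omega
      rw [h7, pow_one] at hj
      have : s = 0 := by omega
      rw [this] at hi
      have := pow_pos (show 0 < 2 by norm_num) i
      omega
    · have h6 : i = 1 := by omega
      rw [h6, pow_one] at hi
      rw [hd, hi]

end Pool.Agent.R503.SIC
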