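import Pool.Agent.R503.SIC.Base

set_option autoImplicit false

/-! # Fiducial vectors with a symmetry of dilation type -/

namespace Pool.Agent.R503.SIC

open Finset Complex
open scoped ComplexConjugate

variable {d : ℕ} [NeZero d]

/-- the symmetry -/
def Sym (ψ : ZMod d → ℂ) (k a b : ZMod d) (c : ℂ) : Prop :=
  k * k = 1 ∧ ∀ j, ψ (k * j + a) = c * e (b * j) * ψ j

variable {ψ : ZMod d → ℂ} {k a b : ZMod d} {c : ℂ}

theorem bij (hk : k * k = 1) (a : ZMod d) : Function.Bijective (fun j : ZMod d => k * j + a) := by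
  have hinj : Function.Injective (fun j : ZMod d => k * j + a) := by
    intro i j hij
    simp only [add_left_inj] at hij
    have := congrArg (fun x => k * x) hij
    simp only [← mul_assoc, hk, one_mul] at this
    exact this
  exact ⟨hinj, Finite.surjective_of_injective hinj⟩

theorem norm_c (hψ : ∑ j, ‖ψ j‖ ^ 2 = 1) (hs : Sym ψ k a b c) : ‖c‖ = 1 := by
  have h1 : ∑ j, ‖ψ (k * j + a)‖ ^ 2 = 1 := by
    rw [← hψ]
    exact (bij hs.1 a).sum_comp (fun j => ‖ψ j‖ ^ 2)
  have h2 : ∀ j, ‖ψ (k * j + a)‖ ^ 2 = ‖c‖ ^ 2 * ‖ψ j‖ ^ 2 := by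
    intro j
    rw [hs.2, norm_mul, norm_mul, norm_e, mul_one, mul_pow]
  rw [Finset.sum_congr rfl fun j _ => h2 j, ← Finset.mul_sum, hψ, mul_one] at h1
  have h3 := norm_nonneg c
  nlinarith

theorem exists_ne (hψ : ∑ j, ‖ψ j‖ ^ 2 = 1) : ∃ j, ψ j ≠ 0 := by
  by_contra hcon
  push Not at hcon
  simp [hcon] at hψ

theorem displ (hψ : Fid ψ) (hs : Sym ψ k a b c) :
    (k + 1) * a = 0 ∧ (k + 1) * b = 0 ∧ c ^ 2 * e (b * a) = 1 := by
  have hkey : ∀ j, ψ (j + (k + 1) * a) = c ^ 2 * e (b * a) * e ((k + 1) * b * j) * ψ j := by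
    intro j
    have h1 := hs.2 (k * j + a)
    have h2 : k * (k * j + a) + a = j + (k + 1) * a := by linear_combination j * hs.1
    rw [h2, hs.2 j] at h1
    rw [h1]
    have h3 : e (b * (k * j + a)) * e (b * j) = e (b * a) * e ((k + 1) * b * j) := by
      rw [← e_add, ← e_add]; congr 1; ring
    calc c * e (b * (k * j + a)) * (c * e (b * j) * ψ j)
        = c ^ 2 * (e (b * (k * j + a)) * e (b * j)) * ψ j := by ring
      _ = _ := by rw [h3]; ring
  have hov : ov ψ ((k + 1) * a) ((k + 1) * b) = conj (c ^ 2 * e (b * a)) := by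
    unfold ov
    have : ∀ j, conj (ψ (j + (k + 1) * a)) * (e ((k + 1) * b * j) * ψ j) =
        conj (c ^ 2 * e (b * a)) * ((‖ψ j‖ ^ 2 : ℝ) : ℂ) := by
      intro j
      rw [hkey j, ← conj_mul_self', map_mul, map_mul (starRingEnd ℂ) (c ^ 2 * e (b * a)), conj_e]
      have := e_mul_neg ((k + 1) * b * j)
      linear_combination conj (c ^ 2 * e (b * a)) * conj (ψ j) * ψ j * this
    rw [Finset.sum_congr rfl fun j _ => this j, ← Finset.mul_sum, ← Complex.ofReal_sum, hψ.1,
      Complex.ofReal_one, mul_one]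
  have hn : ‖ov ψ ((k + 1) * a) ((k + 1) * b)‖ = 1 := by
    rw [hov, norm_conj', norm_mul, norm_pow, norm_c hψ.1 hs, norm_e]; norm_num
  obtain ⟨h1, h2⟩ := eq_zero_of_norm hψ hn
  refine ⟨h1, h2, ?_⟩
  obtain ⟨j, hj⟩ := exists_ne hψ.1
  have h3 := hkey j
  rw [h1, h2, add_zero, zero_mul, e_zero, mul_one] at h3
  exact mul_right_cancel₀ hj (by rw [one_mul]; exact h3.symm)

theorem ov_sym (hψ : ∑ j, ‖ψ j‖ ^ 2 = 1) (hs : Sym ψ k a b c) (x z : ZMod d) :
    ov ψ (k * x) (k * z) = e (k * z * a - b * x) * ov ψ x z := by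
  have hc : conj c * c = 1 := by
    rw [conj_mul_self', norm_c hψ hs]; norm_num
  have h1 : ov ψ (k * x) (k * z) = ∑ j, conj (ψ ((k * j + a) + k * x)) *
      (e (k * z * (k * j + a)) * ψ (k * j + a)) := by
    unfold ov
    exact ((bij hs.1 a).sum_comp (fun i => conj (ψ (i + k * x)) * (e (k * z * i) * ψ i))).symm
  rw [h1]
  unfold ov
  rw [Finset.mul_sum]
  refine Finset.sum_congr rfl fun j _ => ?_
  have h2 : k * j + a + k * x = k * (j + x) + a := by ring
  rw [h2, hs.2 (j + x), hs.2 j, map_mul, map_mul, conj_e]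
  have h3 : e (-(b * (j + x))) * e (k * z * (k * j + a)) * e (b * j) =
      e (k * z * a - b * x) * e (z * j) := by
    rw [← e_add, ← e_add, ← e_add]; congr 1
    linear_combination z * j * hs.1
  calc conj c * e (-(b * (j + x))) * conj (ψ (j + x)) *
        (e (k * z * (k * j + a)) * (c * e (b * j) * ψ j))
      = (conj c * c) * (e (-(b * (j + x))) * e (k * z * (k * j + a)) * e (b * j)) *
        conj (ψ (j + x)) * ψ j := by ring
    _ = _ := by rw [hc, h3]; ring

/-- the terms -/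
noncomputable def term (ψ : ZMod d → ℂ) (k a b : ZMod d) (c : ℂ) (x y : ZMod d) : ℂ :=
  c * (e (y * (a - x)) * ov ψ x (b + (k - 1) * y))

theorem term_sq (hψ : Fid ψ) (hs : Sym ψ k a b c) (w y : ZMod d) :
    term ψ k a b c (a + (k - 1) * w) y ^ 2 =
      ((‖ov ψ (a + (k - 1) * w) (b + (k - 1) * y)‖ : ℝ) : ℂ) ^ 2 := by
  obtain ⟨ha, hb, hc⟩ := displ hψ hs
  obtain ⟨x, hx⟩ : ∃ x, x = a + (k - 1) * w := ⟨_, rfl⟩
  obtain ⟨z, hz⟩ : ∃ z, z = b + (k - 1) * y := ⟨_, rfl⟩
  have hkx : k * x = -x := by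
    rw [hx]; linear_combination ha + w * hs.1
  have hkz : k * z = -z := by
    rw [hz]; linear_combination hb + y * hs.1
  have h1 := ov_sym hψ.1 hs x z
  rw [hkx, hkz] at h1
  have h2 := conj_ov ψ x z
  rw [h1, ← mul_assoc, ← e_add] at h2
  have h3 : conj (ov ψ x z) * ov ψ x z = ((‖ov ψ x z‖ ^ 2 : ℝ) : ℂ) := conj_mul_self' _
  rw [h2] at h3
  unfold term
  rw [← hx, ← hz]
  push_cast at h3
  rw [← h3]
  have hc' : c ^ 2 = e (-(b * a)) := by
    have := e_mul_neg (b * a)
    linear_combination e (-(b * a)) * hc - c ^ 2 * this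
  have h4 : e (y * (a - x)) * e (y * (a - x)) * e (-(b * a)) = e (z * x + (-z * a - b * x)) := by
    rw [← e_add, ← e_add]; congr 1
    rw [hx, hz]
    linear_combination (- w * y) * hs.1
  calc (c * (e (y * (a - x)) * ov ψ x z)) ^ 2
      = c ^ 2 * (e (y * (a - x)) * e (y * (a - x))) * (ov ψ x z * ov ψ x z) := by ring
    _ = (e (y * (a - x)) * e (y * (a - x)) * e (-(b * a))) * (ov ψ x z * ov ψ x z) := by
        rw [hc']; ring
    _ = _ := by rw [h4]; ring

/-- the values of `x` -/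
def img (k a : ZMod d) : Finset (ZMod d) := Finset.univ.image fun w => a + (k - 1) * w

theorem sum_term (hψ : Fid ψ) (hs : Sym ψ k a b c) :
    ∑ x ∈ img k a, ∑ y, term ψ k a b c x y = (d : ℂ) := by
  have hc : c * conj c = 1 := by
    rw [mul_comm, conj_mul_self', norm_c hψ.1 hs]; norm_num
  have h1 : ∀ x, ∑ y, term ψ k a b c x y = ∑ j, c * (conj (ψ (j + x)) * (e (b * j) * ψ j)) *
      (if a - x + (k - 1) * j = 0 then (d : ℂ) else 0) := by
    intro x
    have h2 : ∀ y, term ψ k a b c x y = ∑ j, c * (conj (ψ (j + x)) * (e (b * j) * ψ j)) *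
        e (y * (a - x + (k - 1) * j)) := by
      intro y
      unfold term ov
      rw [Finset.mul_sum, Finset.mul_sum]
      refine Finset.sum_congr rfl fun j _ => ?_
      have h3 : e (y * (a - x)) * e ((b + (k - 1) * y) * j) =
          e (b * j) * e (y * (a - x + (k - 1) * j)) := by
        rw [← e_add, ← e_add]; congr 1; ring
      calc c * (e (y * (a - x)) * (conj (ψ (j + x)) * (e ((b + (k - 1) * y) * j) * ψ j)))
          = c * conj (ψ (j + x)) * ψ j * (e (y * (a - x)) * e ((b + (k - 1) * y) * j)) := by ring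
        _ = _ := by rw [h3]; ring
    rw [Finset.sum_congr rfl fun y _ => h2 y, Finset.sum_comm]
    refine Finset.sum_congr rfl fun j _ => ?_
    rw [← Finset.mul_sum, sum_e]
  rw [Finset.sum_congr rfl fun x _ => h1 x, Finset.sum_comm]
  have h2 : ∀ j, ∑ x ∈ img k a, c * (conj (ψ (j + x)) * (e (b * j) * ψ j)) *
      (if a - x + (k - 1) * j = 0 then (d : ℂ) else 0) = d * ((‖ψ j‖ ^ 2 : ℝ) : ℂ) := by
    intro j
    rw [Finset.sum_eq_single (a + (k - 1) * j)]
    · rw [if_pos (by ring)]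
      have h3 : j + (a + (k - 1) * j) = k * j + a := by ring
      rw [h3, hs.2 j, ← conj_mul_self', map_mul, map_mul, conj_e]
      have h4 := e_mul_neg (b * j)
      linear_combination (d : ℂ) * conj (ψ j) * ψ j * (hc * e (b * j) * e (-(b * j)) + h4)
    · intro x _ hx
      rw [if_neg, mul_zero]
      intro h
      apply hx
      linear_combination -h
    · intro h
      exact absurd (Finset.mem_image_of_mem _ (Finset.mem_univ j)) h
  rw [Finset.sum_congr rfl fun j _ => h2 j, ← Finset.mul_sum, ← Complex.ofReal_sum, hψ.1,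
    Complex.ofReal_one, mul_one]

/-- sums of signs -/
theorem sum_sign {ι : Type} (S : Finset ι) (g : ι → ℂ) (h : ∀ p ∈ S, g p = 1 ∨ g p = -1) :
    ∃ M : ℤ, ∑ p ∈ S, g p = (M : ℂ) ∧ |M| ≤ (S.card : ℤ) := by
  classical
  induction S using Finset.induction_on with
  | empty => exact ⟨0, by simp, by simp⟩
  | insert p S hp ih =>
    obtain ⟨M, h1, h2⟩ := ih fun q hq => h q (Finset.mem_insert_of_mem hq)
    rw [Finset.sum_insert hp, h1, Finset.card_insert_of_notMem hp]
    rcases h p (Finset.mem_insert_self _ _) with h3 | h3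
    · refine ⟨1 + M, by rw [h3]; push_cast; ring, ?_⟩
      push_cast
      rw [abs_le] at h2 ⊢
      constructor <;> linarith [h2.1, h2.2]
    · refine ⟨-1 + M, by rw [h3]; push_cast; ring, ?_⟩
      push_cast
      rw [abs_le] at h2 ⊢
      constructor <;> linarith [h2.1, h2.2]

theorem card_img (k a : ZMod d) :
    (img k a).card * (Finset.univ.filter fun y : ZMod d => (k - 1) * y = 0).card = d := by
  have h1 := Finset.card_eq_sum_card_image (fun w : ZMod d => a + (k - 1) * w) Finset.univ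
  rw [Finset.card_univ, ZMod.card] at h1
  have h2 : ∀ x ∈ img k a, (Finset.univ.filter fun w : ZMod d => a + (k - 1) * w = x).card =
      (Finset.univ.filter fun y : ZMod d => (k - 1) * y = 0).card := by
    intro x hx
    obtain ⟨w₀, -, rfl⟩ := Finset.mem_image.1 hx
    apply Finset.card_bij (fun w _ => w - w₀)
    · intro w hw
      simp only [Finset.mem_filter, Finset.mem_univ, true_and] at hw ⊢
      linear_combination hw
    · intro w _ w' _ h
      exact sub_left_injective h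
    · intro y hy
      simp only [Finset.mem_filter, Finset.mem_univ, true_and] at hy
      refine ⟨y + w₀, ?_, by ring⟩
      simp only [Finset.mem_filter, Finset.mem_univ, true_and]
      linear_combination hy
  change d = ∑ x ∈ img k a, _ at h1
  rw [Finset.sum_congr rfl h2, Finset.sum_const, smul_eq_mul] at h1
  exact h1.symm

theorem card_fib (k b : ZMod d) : (Finset.univ.filter fun y : ZMod d => b + (k - 1) * y = 0).card ≤
    (Finset.univ.filter fun y : ZMod d => (k - 1) * y = 0).card := by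
  by_cases h : ∃ y₀ : ZMod d, b + (k - 1) * y₀ = 0
  · obtain ⟨y₀, hy₀⟩ := h
    apply Finset.card_le_card_of_injOn (fun y => y - y₀)
    · intro y hy
      simp only [Finset.coe_filter, Finset.mem_univ, true_and, Set.mem_setOf_eq] at hy ⊢
      linear_combination hy - hy₀
    · intro y _ y' _ h
      exact sub_left_injective h
  · push Not at h
    rw [Finset.filter_false_of_mem (fun y _ => h y)]
    simp

/-- **Main theorem on dilations.** -/
theorem dilation (hψ : Fid ψ) (hs : Sym ψ k a b c) (hk1 : k ≠ 1) :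
    ∃ t : ℕ, t ^ 2 = d + 1 ∧ t ≤ (img k a).card + 1 := by
  classical
  have hd : 0 < d := Nat.pos_of_ne_zero (NeZero.ne d)
  obtain ⟨N, hN⟩ : ∃ N : ℝ, N = Real.sqrt (d + 1) := ⟨_, rfl⟩
  have hN0 : 0 < N := by rw [hN]; positivity
  have hN2 : N ^ 2 = d + 1 := by rw [hN]; exact Real.sq_sqrt (by positivity)
  obtain ⟨S, hS⟩ : ∃ S : Finset (ZMod d × ZMod d), S = img k a ×ˢ Finset.univ := ⟨_, rfl⟩
  have hsum : ∑ p ∈ S, term ψ k a b c p.1 p.2 = (d : ℂ) := by
    rw [hS, Finset.sum_product]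
    exact sum_term hψ hs
  obtain ⟨A, hA⟩ : ∃ A, A = S.filter (fun p => p.1 = 0 ∧ b + (k - 1) * p.2 = 0) := ⟨_, rfl⟩
  obtain ⟨B, hB⟩ : ∃ B, B = S.filter (fun p => ¬ (p.1 = 0 ∧ b + (k - 1) * p.2 = 0)) := ⟨_, rfl⟩
  have hAB : ∑ p ∈ A, term ψ k a b c p.1 p.2 + ∑ p ∈ B, term ψ k a b c p.1 p.2 = (d : ℂ) := by
    rw [hA, hB, Finset.sum_filter_add_sum_filter_not, hsum]
  have hcard : A.card + B.card = (img k a).card * d := by
    rw [hA, hB, Finset.card_filter_add_card_filter_not, hS, Finset.card_product, Finset.card_univ,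
      ZMod.card]
  have hterm : ∀ p ∈ S, term ψ k a b c p.1 p.2 = ((‖ov ψ p.1 (b + (k - 1) * p.2)‖ : ℝ) : ℂ) ∨
      term ψ k a b c p.1 p.2 = -((‖ov ψ p.1 (b + (k - 1) * p.2)‖ : ℝ) : ℂ) := by
    intro p hp
    rw [hS, Finset.mem_product] at hp
    obtain ⟨w, -, hw⟩ := Finset.mem_image.1 hp.1
    rw [← hw]
    exact sq_eq_sq_iff_eq_or_eq_neg.1 (term_sq hψ hs w p.2)
  obtain ⟨M0, h0, h0'⟩ := sum_sign A (fun p => term ψ k a b c p.1 p.2) (by
    intro p hp
    rw [hA, Finset.mem_filter] at hp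
    have h1 : ‖ov ψ p.1 (b + (k - 1) * p.2)‖ = 1 := by
      rw [hp.2.1, hp.2.2, ov_zero hψ.1, norm_one]
    have h2 := hterm p hp.1
    rw [h1] at h2
    simpa using h2)
  obtain ⟨M1, h1, h1'⟩ := sum_sign B (fun p => (N : ℂ) * term ψ k a b c p.1 p.2) (by
    intro p hp
    rw [hB, Finset.mem_filter] at hp
    have h3 : (p.1, b + (k - 1) * p.2) ≠ ((0 : ZMod d), (0 : ZMod d)) := by
      intro h3
      rw [Prod.mk.injEq] at h3
      exact hp.2 h3
    have h4 : N * ‖ov ψ p.1 (b + (k - 1) * p.2)‖ = 1 := by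
      have h5 := hψ.2 _ _ h3
      have h6 : (N * ‖ov ψ p.1 (b + (k - 1) * p.2)‖) ^ 2 = 1 := by
        rw [mul_pow, hN2, h5]
        field_simp
      have h7 : 0 ≤ N * ‖ov ψ p.1 (b + (k - 1) * p.2)‖ := by positivity
      nlinarith
    have h5 := hterm p hp.1
    rcases h5 with h5 | h5
    · left
      rw [h5]
      exact_mod_cast h4
    · right
      rw [h5, mul_neg]
      congr 1
      exact_mod_cast h4)
  rw [← Finset.mul_sum] at h1
  have hAg : A.card ≤ (Finset.univ.filter fun y : ZMod d => (k - 1) * y = 0).card := by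
    refine le_trans ?_ (card_fib k b)
    apply Finset.card_le_card_of_injOn (fun p => p.2)
    · intro p hp
      rw [hA, Finset.coe_filter, Set.mem_setOf_eq] at hp
      simp only [Finset.coe_filter, Finset.mem_univ, true_and, Set.mem_setOf_eq]
      exact hp.2.2
    · intro p hp q hq hpq
      rw [hA, Finset.coe_filter, Set.mem_setOf_eq] at hp hq
      exact Prod.ext (hp.2.1.trans hq.2.1.symm) hpq
  obtain ⟨g, hg⟩ : ∃ g, g = (Finset.univ.filter fun y : ZMod d => (k - 1) * y = 0).card := ⟨_, rfl⟩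
  obtain ⟨n, hn⟩ : ∃ n, n = (img k a).card := ⟨_, rfl⟩
  have hng := card_img k a
  rw [← hg, ← hn] at hng
  rw [← hg] at hAg
  rw [← hn] at hcard ⊢
  have hgd : g < d := by
    have h3 : g < (Finset.univ : Finset (ZMod d)).card := by
      rw [hg]
      apply Finset.card_lt_card
      rw [Finset.filter_ssubset]
      refine ⟨1, Finset.mem_univ _, ?_⟩
      rw [mul_one]
      exact sub_ne_zero.2 hk1
    rwa [Finset.card_univ, ZMod.card] at h3
  -- the equation
  have hM : ((d : ℝ) - M0) * N = M1 := by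
    have h3 : ((d : ℂ) - M0) * N = M1 := by
      rw [← h1, ← hAB, h0]; ring
    exact_mod_cast h3
  have hM0 : (M0 : ℤ) ≤ A.card := (le_abs_self _).trans h0'
  have hM0d : (0 : ℤ) < d - M0 := by
    have : (A.card : ℤ) < d := by exact_mod_cast lt_of_le_of_lt hAg hgd
    linarith
  have hsqZ : ((d : ℤ) - M0) ^ 2 * (d + 1) = M1 ^ 2 := by
    have h3 : (((d : ℝ) - M0) * N) ^ 2 = (M1 : ℝ) ^ 2 := by rw [hM]
    rw [mul_pow, hN2] at h3
    exact_mod_cast h3
  have hsq : IsSquare ((d + 1 : ℕ) : ℚ) := by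
    refine ⟨(M1 : ℚ) / ((d : ℚ) - M0), ?_⟩
    have h3 : ((d : ℚ) - M0) ≠ 0 := by
      have : (0 : ℚ) < (d : ℚ) - M0 := by exact_mod_cast hM0d
      exact this.ne'
    have h4 : ((d : ℚ) - M0) ^ 2 * (d + 1) = M1 ^ 2 := by exact_mod_cast hsqZ
    rw [div_mul_div_comm, eq_div_iff (mul_ne_zero h3 h3)]
    push_cast
    linarith
  rw [Rat.isSquare_natCast_iff] at hsq
  obtain ⟨t, ht⟩ := hsq
  refine ⟨t, by rw [ht]; ring, ?_⟩
  have hNt : N = t := by
    have h3 : N ^ 2 = (t : ℝ) ^ 2 := by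
      rw [hN2]
      have : ((d + 1 : ℕ) : ℝ) = ((t * t : ℕ) : ℝ) := by rw [ht]
      push_cast at this
      rw [this]; ring
    have h4 : (0 : ℝ) ≤ t := by positivity
    nlinarith
  -- the inequality
  have hMZ : ((d : ℤ) - M0) * t = M1 := by
    rw [hNt] at hM
    exact_mod_cast hM
  have hM1 : (M1 : ℤ) ≤ B.card := (le_abs_self _).trans h1'
  have hB' : (B.card : ℤ) = n * d - A.card := by
    have : (A.card : ℤ) + B.card = n * d := by exact_mod_cast hcard
    linarith
  have h5 : ((d : ℤ) - A.card) * t ≤ n * d - A.card := by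
    have h6 : ((d : ℤ) - A.card) * t ≤ ((d : ℤ) - M0) * t :=
      mul_le_mul_of_nonneg_right (by linarith) (by positivity)
    linarith
  by_contra hcon
  push Not at hcon
  have h6 : (n : ℤ) + 2 ≤ t := by exact_mod_cast hcon
  have hα : (A.card : ℤ) ≤ g := by exact_mod_cast hAg
  have hgd' : (g : ℤ) < d := by exact_mod_cast hgd
  have hng' : (n : ℤ) * g = d := by exact_mod_cast hng
  have h7 : ((d : ℤ) - A.card) * (n + 2) ≤ ((d : ℤ) - A.card) * t :=
    mul_le_mul_of_nonneg_left h6 (by linarith)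
  have h8 : (A.card : ℤ) * (n + 1) ≤ g * (n + 1) := mul_le_mul_of_nonneg_right hα (by positivity)
  nlinarith

end Pool.Agent.R503.SIC
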