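import Pool.Agent.R503.SIC.Base

set_option autoImplicit false

/-! # Self-duality of the squared overlaps and exceptional sets -/

namespace Pool.Agent.R503.SIC

open Finset Complex
open scoped ComplexConjugate

variable {d : ℕ} [NeZero d]

/-- symplectic Fourier transform -/
noncomputable def F (h : ZMod d × ZMod d → ℂ) (q : ZMod d × ZMod d) : ℂ :=
  ∑ p : ZMod d × ZMod d, e (p.1 * q.2 - p.2 * q.1) * h p

/-- squared overlaps -/
noncomputable def g (ψ : ZMod d → ℂ) (p : ZMod d × ZMod d) : ℝ := ‖ov ψ p.1 p.2‖ ^ 2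

/-- the squared overlaps of a fiducial -/
noncomputable def g₀ (p : ZMod d × ZMod d) : ℝ := if p = 0 then 1 else 1 / ((d : ℝ) + 1)

theorem g_eq (ψ : ZMod d → ℂ) (p : ZMod d × ZMod d) :
    (g ψ p : ℂ) = ∑ l, ∑ j, conj (ψ (j + p.1)) * ψ j * (ψ (l + p.1) * conj (ψ l)) *
      e (p.2 * (j - l)) := by
  unfold g
  rw [← conj_mul_self']
  unfold ov
  rw [map_sum, Finset.sum_mul]
  refine Finset.sum_congr rfl fun l _ => ?_
  rw [Finset.mul_sum]
  refine Finset.sum_congr rfl fun j _ => ?_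
  rw [map_mul, map_mul, Complex.conj_conj, conj_e]
  have h1 : e (-(p.2 * l)) * e (p.2 * j) = e (p.2 * (j - l)) := by
    rw [← e_add]; congr 1; ring
  calc ψ (l + p.1) * (e (-(p.2 * l)) * conj (ψ l)) * (conj (ψ (j + p.1)) * (e (p.2 * j) * ψ j))
      = conj (ψ (j + p.1)) * ψ j * (ψ (l + p.1) * conj (ψ l)) * (e (-(p.2 * l)) * e (p.2 * j)) := by
        ring
    _ = _ := by rw [h1]

theorem selfdual (ψ : ZMod d → ℂ) (q : ZMod d × ZMod d) :
    F (fun p => (g ψ p : ℂ)) q = d * (g ψ q : ℂ) := by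
  obtain ⟨α, β⟩ := q
  unfold F
  rw [Fintype.sum_prod_type]
  have h1 : ∀ a : ZMod d, ∑ b : ZMod d, e (a * β - b * α) * (g ψ (a, b) : ℂ) =
      ∑ l, e (a * β) * (conj (ψ (l + α + a)) * ψ (l + α) * (ψ (l + a) * conj (ψ l))) * d := by
    intro a
    have h2 : ∀ b : ZMod d, e (a * β - b * α) * (g ψ (a, b) : ℂ) =
        ∑ l, ∑ j, e (a * β) * (conj (ψ (j + a)) * ψ j * (ψ (l + a) * conj (ψ l))) *
          e (b * (j - l - α)) := by
      intro b
      rw [g_eq, Finset.mul_sum]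
      refine Finset.sum_congr rfl fun l _ => ?_
      rw [Finset.mul_sum]
      refine Finset.sum_congr rfl fun j _ => ?_
      have h3 : e (a * β - b * α) * e (b * (j - l)) = e (a * β) * e (b * (j - l - α)) := by
        rw [← e_add, ← e_add]; congr 1; ring
      simp only
      calc e (a * β - b * α) * (conj (ψ (j + a)) * ψ j * (ψ (l + a) * conj (ψ l)) *
            e (b * (j - l)))
          = conj (ψ (j + a)) * ψ j * (ψ (l + a) * conj (ψ l)) *
            (e (a * β - b * α) * e (b * (j - l))) := by ring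
        _ = _ := by rw [h3]; ring
    rw [Finset.sum_congr rfl fun b _ => h2 b, Finset.sum_comm]
    refine Finset.sum_congr rfl fun l _ => ?_
    rw [Finset.sum_comm, Finset.sum_eq_single (l + α)]
    · rw [← Finset.mul_sum, sum_e, if_pos (by ring)]
    · intro j _ hj
      rw [← Finset.mul_sum, sum_e, if_neg, mul_zero]
      intro h
      exact hj (by linear_combination h)
    · intro h; exact absurd (Finset.mem_univ _) h
  simp only
  rw [Finset.sum_congr rfl fun a _ => h1 a, Finset.sum_comm, g_eq, Finset.mul_sum]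
  refine Finset.sum_congr rfl fun l _ => ?_
  rw [Finset.mul_sum]
  refine Fintype.sum_equiv (Equiv.addLeft l) _ _ fun a => ?_
  simp only [Equiv.coe_addLeft]
  have h4 : l + a - l = a := by ring
  have h5 : l + a + α = l + α + a := by ring
  rw [h4, h5, mul_comm β a]
  ring

theorem selfdual₀ (q : ZMod d × ZMod d) :
    F (fun p => (g₀ p : ℂ)) q = d * (g₀ q : ℂ) := by
  have hd : ((d : ℂ) + 1) ≠ 0 := by
    have : ((d : ℂ) + 1) = ((d + 1 : ℕ) : ℂ) := by push_cast; rfl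
    rw [this]; exact Nat.cast_ne_zero.2 (Nat.succ_ne_zero d)
  have h1 : ∀ p : ZMod d × ZMod d, (g₀ p : ℂ) =
      1 / ((d : ℂ) + 1) + (if p = 0 then (d : ℂ) / (d + 1) else 0) := by
    intro p
    unfold g₀
    split_ifs with h
    · push_cast; field_simp; ring
    · push_cast; ring
  have h2 : ∑ p : ZMod d × ZMod d, e (p.1 * q.2 - p.2 * q.1) =
      if q = 0 then (d : ℂ) ^ 2 else 0 := by
    rw [Fintype.sum_prod_type]
    have h3 : ∀ a : ZMod d, ∑ b : ZMod d, e (a * q.2 - b * q.1) =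
        e (a * q.2) * (if -q.1 = 0 then (d : ℂ) else 0) := by
      intro a
      rw [← sum_e, Finset.mul_sum]
      refine Finset.sum_congr rfl fun b _ => ?_
      rw [← e_add]; congr 1; ring
    simp only
    rw [Finset.sum_congr rfl fun a _ => h3 a, ← Finset.sum_mul, sum_e]
    by_cases hq : q = 0
    · rw [if_pos hq, if_pos (by rw [hq]; rfl), if_pos (by rw [hq]; simp)]; ring
    · rw [if_neg hq]
      by_cases h4 : q.2 = 0
      · have h5 : ¬ (-q.1 = 0) := by
          intro h5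
          apply hq
          exact Prod.ext (neg_eq_zero.1 h5) h4
        rw [if_neg h5, mul_zero]
      · rw [if_neg h4, zero_mul]
  unfold F
  have h3 : ∀ p : ZMod d × ZMod d, e (p.1 * q.2 - p.2 * q.1) * (g₀ p : ℂ) =
      e (p.1 * q.2 - p.2 * q.1) * (1 / ((d : ℂ) + 1)) +
        (if p = 0 then (d : ℂ) / (d + 1) else 0) := by
    intro p
    rw [h1, mul_add]
    congr 1
    split_ifs with h
    · rw [h]; simp [e_zero]
    · rw [mul_zero]
  rw [Finset.sum_congr rfl fun p _ => h3 p, Finset.sum_add_distrib, ← Finset.sum_mul, h2,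
    Finset.sum_ite_eq' Finset.univ (0 : ZMod d × ZMod d), if_pos (Finset.mem_univ _), h1]
  split_ifs with h
  · field_simp; ring
  · field_simp; ring

/-- functions which are self-dual up to the factor `d` -/
def SD (h : ZMod d × ZMod d → ℝ) : Prop := ∀ q, F (fun p => (h p : ℂ)) q = d * (h q : ℂ)

theorem SD.sub {h h' : ZMod d × ZMod d → ℝ} (H : SD h) (H' : SD h') (c : ℝ) :
    SD fun p => h p - c * h' p := by
  intro q
  have h1 : F (fun p => ((h p - c * h' p : ℝ) : ℂ)) q =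
      F (fun p => (h p : ℂ)) q - c * F (fun p => (h' p : ℂ)) q := by
    unfold F
    rw [Finset.mul_sum, ← Finset.sum_sub_distrib]
    refine Finset.sum_congr rfl fun p _ => ?_
    push_cast; ring
  rw [h1, H q, H' q]
  push_cast; ring

theorem sd_g (ψ : ZMod d → ℂ) : SD (g ψ) := selfdual ψ

theorem sd_g₀ : SD (g₀ : ZMod d × ZMod d → ℝ) := selfdual₀

/-- the maximum is at most the `L¹` norm divided by `d` -/
theorem SD.sup {h : ZMod d × ZMod d → ℝ} (H : SD h) (q : ZMod d × ZMod d) :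
    d * |h q| ≤ ∑ p, |h p| := by
  have h1 : ‖(d : ℂ) * (h q : ℂ)‖ ≤ ∑ p, |h p| := by
    rw [← H q]
    unfold F
    refine (norm_sum_le _ _).trans (Finset.sum_le_sum fun p _ => ?_)
    rw [norm_mul, norm_e, one_mul, Complex.norm_real, Real.norm_eq_abs]
  rw [norm_mul, Complex.norm_natCast, Complex.norm_real, Real.norm_eq_abs] at h1
  exact h1

theorem SD.sum {h : ZMod d × ZMod d → ℝ} (H : SD h) : ∑ p, h p = d * h 0 := by
  have h1 := H 0
  unfold F at h1
  simp only [Prod.fst_zero, Prod.snd_zero, mul_zero, sub_self, e_zero, one_mul] at h1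
  exact_mod_cast h1

/-- a self-dual function with fewer than `d` nonzero values is zero -/
theorem SD.eq_zero {h : ZMod d × ZMod d → ℝ} (H : SD h) (E : Finset (ZMod d × ZMod d))
    (hE : E.card < d) (hsupp : ∀ p, p ∉ E → h p = 0) (q : ZMod d × ZMod d) : h q = 0 := by
  obtain ⟨m, -, hm⟩ := Finset.exists_max_image Finset.univ (fun p => |h p|)
    ⟨(0 : ZMod d × ZMod d), Finset.mem_univ _⟩
  have h1 : ∑ p, |h p| ≤ E.card * |h m| := by
    have h2 : ∑ p, |h p| = ∑ p ∈ E, |h p| := by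
      symm
      apply Finset.sum_subset (Finset.subset_univ E)
      intro p _ hp
      rw [hsupp p hp, abs_zero]
    rw [h2]
    calc ∑ p ∈ E, |h p| ≤ ∑ p ∈ E, |h m| := Finset.sum_le_sum fun p _ => hm p (Finset.mem_univ _)
      _ = E.card * |h m| := by rw [Finset.sum_const, nsmul_eq_mul]
  have h2 := H.sup m
  have h3 : (E.card : ℝ) < d := by exact_mod_cast hE
  have h4 : |h m| = 0 := by
    have h5 := abs_nonneg (h m)
    nlinarith
  have h5 := hm q (Finset.mem_univ _)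
  rw [h4] at h5
  exact abs_eq_zero.1 (le_antisymm h5 (abs_nonneg _))

/-- the `L¹` estimate -/
theorem SD.l1 {h : ZMod d × ZMod d → ℝ} (H : SD h) (h0 : h 0 = 0) (E : Finset (ZMod d × ZMod d)) :
    ((d : ℝ) - 2 * E.card) * ∑ p, |h p| ≤ 2 * d * ∑ p ∈ Eᶜ, max (h p) 0 := by
  have hd : (0 : ℝ) < d := by exact_mod_cast Nat.pos_of_ne_zero (NeZero.ne d)
  have h1 : ∑ p, |h p| = 2 * ∑ p, max (h p) 0 := by
    have h2 : ∀ p, |h p| = 2 * max (h p) 0 - h p := by
      intro p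
      rcases le_total (h p) 0 with h3 | h3
      · rw [abs_of_nonpos h3, max_eq_right h3]; ring
      · rw [abs_of_nonneg h3, max_eq_left h3]; ring
    rw [Finset.sum_congr rfl fun p _ => h2 p, Finset.sum_sub_distrib, H.sum, h0, ← Finset.mul_sum]
    ring
  have h2 : ∑ p, max (h p) 0 = ∑ p ∈ E, max (h p) 0 + ∑ p ∈ Eᶜ, max (h p) 0 :=
    (Finset.sum_add_sum_compl E _).symm
  have h3 : d * ∑ p ∈ E, max (h p) 0 ≤ E.card * ∑ p, |h p| := by
    rw [Finset.mul_sum]
    calc ∑ p ∈ E, d * max (h p) 0 ≤ ∑ p ∈ E, ∑ p, |h p| := by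
          refine Finset.sum_le_sum fun p _ => ?_
          refine le_trans ?_ (H.sup p)
          exact mul_le_mul_of_nonneg_left (max_le (le_abs_self _) (abs_nonneg _)) hd.le
      _ = E.card * ∑ p, |h p| := by rw [Finset.sum_const, nsmul_eq_mul]
  rw [h2] at h1
  nlinarith

theorem SD.neg {h : ZMod d × ZMod d → ℝ} (H : SD h) : SD fun p => - h p := by
  intro q
  have h1 : F (fun p => ((- h p : ℝ) : ℂ)) q = - F (fun p => (h p : ℂ)) q := by
    unfold F
    rw [← Finset.sum_neg_distrib]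
    refine Finset.sum_congr rfl fun p _ => ?_
    push_cast; ring
  rw [h1, H q]
  push_cast; ring

theorem g_zero {ψ : ZMod d → ℂ} (hψ : ∑ j, ‖ψ j‖ ^ 2 = 1) : g ψ 0 = 1 := by
  unfold g
  rw [Prod.fst_zero, Prod.snd_zero, ov_zero hψ]; norm_num

theorem g₀_zero : g₀ (0 : ZMod d × ZMod d) = 1 := by
  unfold g₀; rw [if_pos rfl]

theorem g₀_ne {p : ZMod d × ZMod d} (hp : p ≠ 0) : g₀ p = 1 / ((d : ℝ) + 1) := by
  unfold g₀; rw [if_neg hp]

theorem fid_iff_g {ψ : ZMod d → ℂ} (hψ : ∑ j, ‖ψ j‖ ^ 2 = 1) :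
    Fid ψ ↔ ∀ p : ZMod d × ZMod d, p ≠ 0 → g ψ p = 1 / ((d : ℝ) + 1) := by
  constructor
  · intro h p hp
    exact h.2 p.1 p.2 hp
  · intro h
    exact ⟨hψ, fun a b hab => h (a, b) hab⟩

/-- **Exact version.** -/
theorem exact_version {ψ : ZMod d → ℂ} (hψ : ∑ j, ‖ψ j‖ ^ 2 = 1)
    (E : Finset (ZMod d × ZMod d)) (c : ℝ)
    (hE : E.card + 1 < d ∨ (E.card < d ∧ (0 : ZMod d × ZMod d) ∉ E ∧ c = 1 / ((d : ℝ) + 1)))
    (hc : ∀ p : ZMod d × ZMod d, p ∉ E → p ≠ 0 → g ψ p = c) : Fid ψ := by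
  have hd : (0 : ℝ) < (d : ℝ) + 1 := by positivity
  have H : SD fun p => g ψ p - c * ((d : ℝ) + 1) * g₀ p := (sd_g ψ).sub sd_g₀ _
  have hz : ∀ p, g ψ p - c * ((d : ℝ) + 1) * g₀ p = 0 := by
    rcases hE with hE | ⟨hE, h0E, rfl⟩
    · apply H.eq_zero (insert 0 E) (lt_of_le_of_lt (Finset.card_insert_le _ _) hE)
      intro p hp
      rw [Finset.mem_insert, not_or] at hp
      rw [hc p hp.2 hp.1, g₀_ne hp.1]
      field_simp
      ring
    · apply H.eq_zero E hE
      intro p hp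
      by_cases h0 : p = 0
      · rw [h0, g_zero hψ, g₀_zero]
        field_simp
        ring
      · rw [hc p hp h0, g₀_ne h0]
        field_simp
        ring
  have h0 := hz 0
  rw [g_zero hψ, g₀_zero, mul_one] at h0
  rw [fid_iff_g hψ]
  intro p hp
  have h1 := hz p
  rw [g₀_ne hp] at h1
  have h2 : c * ((d : ℝ) + 1) = 1 := by linarith
  rw [h2, one_mul] at h1
  linarith

/-- **Quantitative version.** -/
theorem l1_version {ψ : ZMod d → ℂ} (hψ : ∑ j, ‖ψ j‖ ^ 2 = 1) (E : Finset (ZMod d × ZMod d)) :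
    ((d : ℝ) - 2 * E.card) * ∑ p, |g ψ p - g₀ p| ≤ 2 * d * ∑ p ∈ Eᶜ, max (g ψ p - g₀ p) 0 ∧
    ((d : ℝ) - 2 * E.card) * ∑ p, |g ψ p - g₀ p| ≤ 2 * d * ∑ p ∈ Eᶜ, max (g₀ p - g ψ p) 0 := by
  have H : SD fun p => g ψ p - 1 * g₀ p := (sd_g ψ).sub sd_g₀ 1
  have H1 : SD fun p => g ψ p - g₀ p := by simpa using H
  have h0 : g ψ 0 - g₀ (0 : ZMod d × ZMod d) = 0 := by rw [g_zero hψ, g₀_zero, sub_self]
  refine ⟨H1.l1 h0 E, ?_⟩
  have h1 := H1.neg.l1 (by rw [h0, neg_zero]) E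
  simp only [abs_neg, neg_sub] at h1
  have h2 : ∑ p, |g ψ p - g₀ p| = ∑ p, |g₀ p - g ψ p| :=
    Finset.sum_congr rfl fun p _ => abs_sub_comm _ _
  rw [h2]
  exact h1

end Pool.Agent.R503.SIC
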