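import Pool.Agent.R503.SIC.Exc

set_option autoImplicit false

/-! # Sharpness (Alltop vectors) and the existence criterion -/

namespace Pool.Agent.R503.SIC

open Finset Complex
open scoped ComplexConjugate

variable {d : ℕ} [NeZero d]

/-- quadratic Gauss sums -/
theorem quad (hp : d.Prime) (hp2 : 2 < d) {A : ZMod d} (hA : A ≠ 0) (B : ZMod d) :
    ‖∑ j : ZMod d, e (A * j ^ 2 + B * j)‖ ^ 2 = d := by
  haveI := Fact.mk hp
  have h2 : (2 : ZMod d) ≠ 0 := by
    intro h
    have h1 : ((2 : ℕ) : ZMod d) = 0 := by exact_mod_cast h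
    rw [ZMod.natCast_eq_zero_iff] at h1
    have := Nat.le_of_dvd (by norm_num) h1
    omega
  have h1 : ((‖∑ j : ZMod d, e (A * j ^ 2 + B * j)‖ ^ 2 : ℝ) : ℂ) = (d : ℂ) := by
    rw [← conj_mul_self', map_sum, Finset.sum_mul]
    have h3 : ∀ l : ZMod d, conj (e (A * l ^ 2 + B * l)) * ∑ j : ZMod d, e (A * j ^ 2 + B * j) =
        ∑ m : ZMod d, e (A * m ^ 2 + B * m) * e (l * (2 * A * m)) := by
      intro l
      rw [Finset.mul_sum]
      refine Fintype.sum_equiv (Equiv.subRight l) _ _ fun j => ?_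
      rw [conj_e, ← e_add, ← e_add]
      congr 1
      simp only [Equiv.subRight_apply]
      ring
    rw [Finset.sum_congr rfl fun l _ => h3 l, Finset.sum_comm]
    have h4 : ∀ m : ZMod d, ∑ l : ZMod d, e (A * m ^ 2 + B * m) * e (l * (2 * A * m)) =
        if m = 0 then (d : ℂ) else 0 := by
      intro m
      rw [← Finset.mul_sum, sum_e]
      by_cases hm : m = 0
      · rw [if_pos hm, if_pos (by rw [hm, mul_zero]), hm]
        simp [e_zero]
      · rw [if_neg hm, if_neg, mul_zero]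
        exact mul_ne_zero (mul_ne_zero h2 hA) hm
    rw [Finset.sum_congr rfl fun m _ => h4 m]
    simp
  exact_mod_cast h1

/-- the Alltop vector -/
noncomputable def alltop (d : ℕ) [NeZero d] (j : ZMod d) : ℂ := e (j ^ 3) / (Real.sqrt d : ℂ)

theorem sqrt_sq : ((Real.sqrt d : ℝ) : ℂ) * ((Real.sqrt d : ℝ) : ℂ) = d := by
  rw [← Complex.ofReal_mul, Real.mul_self_sqrt (by positivity)]
  norm_cast

theorem sqrt_ne : ((Real.sqrt d : ℝ) : ℂ) ≠ 0 := by
  have hd : (0 : ℝ) < d := by exact_mod_cast Nat.pos_of_ne_zero (NeZero.ne d)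
  exact_mod_cast (Real.sqrt_pos.2 hd).ne'

theorem alltop_unit : ∑ j, ‖alltop d j‖ ^ 2 = 1 := by
  have hd : (0 : ℝ) < d := by exact_mod_cast Nat.pos_of_ne_zero (NeZero.ne d)
  have h1 : ∀ j : ZMod d, ‖alltop d j‖ ^ 2 = 1 / d := by
    intro j
    unfold alltop
    rw [norm_div, norm_e, Complex.norm_real, Real.norm_eq_abs, abs_of_nonneg (Real.sqrt_nonneg _),
      div_pow, Real.sq_sqrt hd.le]
    norm_num
  rw [Finset.sum_congr rfl fun j _ => h1 j, Finset.sum_const, Finset.card_univ, ZMod.card,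
    nsmul_eq_mul]
  field_simp

theorem alltop_ov (a b : ZMod d) : ov (alltop d) a b =
    e (-a ^ 3) / d * ∑ j : ZMod d, e ((-3 * a) * j ^ 2 + (b - 3 * a ^ 2) * j) := by
  unfold ov
  rw [Finset.mul_sum]
  refine Finset.sum_congr rfl fun j _ => ?_
  unfold alltop
  rw [map_div₀, conj_e, Complex.conj_ofReal]
  have h1 : e (-(j + a) ^ 3) * e (b * j) * e (j ^ 3) =
      e (-a ^ 3) * e ((-3 * a) * j ^ 2 + (b - 3 * a ^ 2) * j) := by
    rw [← e_add, ← e_add, ← e_add]; congr 1; ring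
  have h2 := sqrt_sq (d := d)
  have h3 := sqrt_ne (d := d)
  have h4 : (d : ℂ) ≠ 0 := Nat.cast_ne_zero.2 (NeZero.ne d)
  calc e (-(j + a) ^ 3) / (Real.sqrt d : ℂ) * (e (b * j) * (e (j ^ 3) / (Real.sqrt d : ℂ)))
      = e (-(j + a) ^ 3) * e (b * j) * e (j ^ 3) /
        ((Real.sqrt d : ℂ) * (Real.sqrt d : ℂ)) := by
          field_simp
    _ = _ := by rw [h1, h2]; ring

theorem alltop_g (hp : d.Prime) (hp5 : 5 ≤ d) (p : ZMod d × ZMod d) (h0 : p ≠ 0) :
    g (alltop d) p = if p.1 = 0 then 0 else 1 / (d : ℝ) := by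
  haveI := Fact.mk hp
  have hd : (0 : ℝ) < d := by exact_mod_cast hp.pos
  unfold g
  rw [alltop_ov]
  split_ifs with h
  · have h2 : p.2 ≠ 0 := fun h2 => h0 (Prod.ext h h2)
    rw [h]
    have h3 : ∑ j : ZMod d, e ((-3 * 0) * j ^ 2 + (p.2 - 3 * 0 ^ 2) * j) = 0 := by
      have h4 := sum_e p.2
      rw [if_neg h2] at h4
      rw [← h4]
      refine Finset.sum_congr rfl fun j _ => ?_
      congr 1; ring
    rw [h3, mul_zero, norm_zero]; norm_num
  · have h3 : (3 : ZMod d) ≠ 0 := by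
      intro h
      have h1 : ((3 : ℕ) : ZMod d) = 0 := by exact_mod_cast h
      rw [ZMod.natCast_eq_zero_iff] at h1
      have := Nat.le_of_dvd (by norm_num) h1
      omega
    have hA : -3 * p.1 ≠ 0 := mul_ne_zero (neg_ne_zero.2 h3) h
    rw [norm_mul, mul_pow, quad hp (by omega) hA, norm_div, norm_e, Complex.norm_natCast]
    field_simp

theorem alltop_sharp (hp : d.Prime) (hp5 : 5 ≤ d) : ∃ (ψ : ZMod d → ℂ)
    (E : Finset (ZMod d × ZMod d)), ∑ j, ‖ψ j‖ ^ 2 = 1 ∧ E.card = d - 1 ∧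
      (∀ p, p ∉ E → p ≠ 0 → g ψ p = 1 / (d : ℝ)) ∧ ¬ Fid ψ := by
  have hd : (0 : ℝ) < d := by exact_mod_cast hp.pos
  refine ⟨alltop d, (Finset.univ.filter fun b : ZMod d => b ≠ 0).image fun b => (0, b),
    alltop_unit, ?_, ?_, ?_⟩
  · rw [Finset.card_image_of_injective _ (fun x y h => (Prod.mk.injEq _ _ _ _ ▸ h).2),
      Finset.filter_ne', Finset.card_erase_of_mem (Finset.mem_univ _), Finset.card_univ, ZMod.card]
  · intro p hp' h0
    rw [alltop_g hp hp5 p h0, if_neg]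
    intro h
    apply hp'
    rw [Finset.mem_image]
    refine ⟨p.2, ?_, Prod.ext h.symm rfl⟩
    rw [Finset.mem_filter]
    exact ⟨Finset.mem_univ _, fun h2 => h0 (Prod.ext h h2)⟩
  · intro hF
    have h1 := (fid_iff_g alltop_unit).1 hF (0, 1) (by
      intro h
      have h5 := congrArg Prod.snd h
      simp only [Prod.snd_zero] at h5
      haveI := Fact.mk hp
      exact one_ne_zero h5)
    rw [alltop_g hp hp5 _ (by
      intro h
      have h5 := congrArg Prod.snd h
      simp only [Prod.snd_zero] at h5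
      haveI := Fact.mk hp
      exact one_ne_zero h5), if_pos rfl] at h1
    have : (0 : ℝ) < 1 / ((d : ℝ) + 1) := by positivity
    linarith

theorem continuous_g (p : ZMod d × ZMod d) : Continuous fun ψ : ZMod d → ℂ => g ψ p := by
  unfold g ov
  refine (Continuous.norm ?_).pow 2
  refine continuous_finset_sum _ fun j _ => ?_
  exact (Complex.continuous_conj.comp (continuous_apply _)).mul
    (continuous_const.mul (continuous_apply _))

theorem exist_iff : (∃ ψ : ZMod d → ℂ, Fid ψ) ↔ ∀ δ : ℝ, 0 < δ → ∃ (ψ : ZMod d → ℂ)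
    (E : Finset (ZMod d × ZMod d)), ∑ j, ‖ψ j‖ ^ 2 = 1 ∧ 2 * E.card < d ∧
      ∀ p, p ∉ E → p ≠ 0 → g ψ p ≤ 1 / ((d : ℝ) + 1) + δ := by
  have hd : 0 < d := Nat.pos_of_ne_zero (NeZero.ne d)
  have hdR : (0 : ℝ) < d := by exact_mod_cast hd
  constructor
  · rintro ⟨ψ, hψ⟩ δ hδ
    refine ⟨ψ, ∅, hψ.1, by simpa using hd, fun p _ hp => ?_⟩
    rw [(fid_iff_g hψ.1).1 hψ p hp]
    linarith
  · intro H
    obtain ⟨K, hK⟩ : ∃ K : Set (ZMod d → ℂ), K = {ψ | ∑ j, ‖ψ j‖ ^ 2 = 1} := ⟨_, rfl⟩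
    have hKc : IsCompact K := by
      apply Metric.isCompact_of_isClosed_isBounded
      · rw [hK]
        exact isClosed_eq (by fun_prop) continuous_const
      · apply (Metric.isBounded_closedBall (x := (0 : ZMod d → ℂ)) (r := 1)).subset
        intro ψ hψ
        rw [hK, Set.mem_setOf_eq] at hψ
        rw [mem_closedBall_zero_iff, pi_norm_le_iff_of_nonneg zero_le_one]
        intro j
        have h1 : ‖ψ j‖ ^ 2 ≤ 1 := by
          rw [← hψ]
          exact Finset.single_le_sum (f := fun j => ‖ψ j‖ ^ 2) (fun i _ => by positivity)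
            (Finset.mem_univ j)
        have h2 := norm_nonneg (ψ j)
        nlinarith
    have hKn : K.Nonempty := by
      obtain ⟨ψ, E, h1, -, -⟩ := H 1 one_pos
      exact ⟨ψ, by rw [hK]; exact h1⟩
    obtain ⟨ψ₀, hψ₀, hmin⟩ := hKc.exists_isMinOn hKn
      (f := fun ψ => ∑ p : ZMod d × ZMod d, |g ψ p - g₀ p|)
      (continuous_finset_sum _ fun p _ =>
        ((continuous_g p).sub continuous_const).abs).continuousOn
    rw [hK, Set.mem_setOf_eq] at hψ₀
    have hle : ∀ δ : ℝ, 0 < δ → ∑ p : ZMod d × ZMod d, |g ψ₀ p - g₀ p| ≤ 2 * d * (d ^ 2 * δ) := by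
      intro δ hδ
      obtain ⟨ψ, E, h1, h2, h3⟩ := H δ hδ
      have h4 := hmin (show ψ ∈ K by rw [hK]; exact h1)
      refine (show _ ≤ _ from h4).trans ?_
      have h5 := (l1_version h1 E).1
      have h6 : (1 : ℝ) ≤ (d : ℝ) - 2 * E.card := by
        have : 2 * E.card + 1 ≤ d := h2
        have h7 : ((2 * E.card + 1 : ℕ) : ℝ) ≤ d := by exact_mod_cast this
        push_cast at h7
        linarith
      have h7 : 0 ≤ ∑ p : ZMod d × ZMod d, |g ψ p - g₀ p| :=
        Finset.sum_nonneg fun _ _ => abs_nonneg _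
      have h8 : ∑ p ∈ Eᶜ, max (g ψ p - g₀ p) 0 ≤ d ^ 2 * δ := by
        calc ∑ p ∈ Eᶜ, max (g ψ p - g₀ p) 0 ≤ ∑ p ∈ Eᶜ, δ := by
              refine Finset.sum_le_sum fun p hp => ?_
              rw [Finset.mem_compl] at hp
              by_cases h0 : p = 0
              · rw [h0, g_zero h1, g₀_zero, sub_self, max_self]; exact hδ.le
              · rw [g₀_ne h0]
                have := h3 p hp h0
                exact max_le (by linarith) hδ.le
          _ ≤ ∑ p : ZMod d × ZMod d, δ :=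
              Finset.sum_le_sum_of_subset_of_nonneg (Finset.subset_univ _) fun _ _ _ => hδ.le
          _ = d ^ 2 * δ := by
              rw [Finset.sum_const, Finset.card_univ, Fintype.card_prod, ZMod.card, nsmul_eq_mul]
              push_cast; ring
      nlinarith
    have hz : ∑ p : ZMod d × ZMod d, |g ψ₀ p - g₀ p| ≤ 0 := by
      apply le_of_forall_pos_le_add
      intro ε hε
      have h1 := hle (ε / (2 * d * d ^ 2)) (by positivity)
      have h2 : 2 * (d : ℝ) * (d ^ 2 * (ε / (2 * d * d ^ 2))) = ε := by field_simp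
      rw [h2] at h1
      linarith
    refine ⟨ψ₀, (fid_iff_g hψ₀).2 fun p hp => ?_⟩
    have h1 : |g ψ₀ p - g₀ p| ≤ 0 := le_trans
      (Finset.single_le_sum (f := fun p => |g ψ₀ p - g₀ p|) (fun _ _ => abs_nonneg _)
        (Finset.mem_univ p)) hz
    have h2 := abs_eq_zero.1 (le_antisymm h1 (abs_nonneg _))
    rw [g₀_ne hp] at h2
    linarith

end Pool.Agent.R503.SIC
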